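import Pool.Agent.Run7.h146.Met.I2

/-!
# Piece LCM of project Met (helper146): translation invariance
-/

set_option autoImplicit false

open MeasureTheory Filter Topology ENNReal

namespace Run7.h662.Met

open Run7.h146.Met

/-- translation of the positions -/
noncomputable def tr {d : ℕ} (a : V d) : X d ≃ᵐ X d :=
  (MeasurableEquiv.addLeft a).prodCongr (MeasurableEquiv.refl _)

lemma tr_apply {d : ℕ} (a : V d) (y : X d) : tr a y = (a + y.1, y.2) := rfl

open Classical in
lemma ins_tr {d : ℕ} (a : V d) (z : X d) (F : Finset (X d)) :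
    ins (tr a z) (F.image (tr a)) = (ins z F).image (tr a) := by
  ext y
  simp only [ins, Finset.mem_insert, Finset.mem_image]
  constructor
  · rintro (h | ⟨w, hw, rfl⟩)
    · exact ⟨z, Or.inl rfl, h.symm⟩
    · exact ⟨w, Or.inr hw, rfl⟩
  · rintro ⟨w, (rfl | hw), rfl⟩
    · exact Or.inl rfl
    · exact Or.inr ⟨w, hw, rfl⟩

open Classical in
lemma del_tr {d : ℕ} (a : V d) (z : X d) (F : Finset (X d)) :
    del (tr a z) (F.image (tr a)) = (del z F).image (tr a) := by
  ext y
  simp only [del, Finset.mem_erase, Finset.mem_image]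
  constructor
  · rintro ⟨h, w, hw, rfl⟩
    exact ⟨w, ⟨fun e => h (by rw [e]), hw⟩, rfl⟩
  · rintro ⟨w, ⟨h, hw⟩, rfl⟩
    exact ⟨fun e => h ((tr a).injective e), w, hw, rfl⟩

open Classical in
lemma res_tr {d : ℕ} (a : V d) (c : V d) (r : ℝ) (F : Finset (X d)) :
    res (Metric.ball (a + c) r) (F.image (tr a)) = (res (Metric.ball c r) F).image (tr a) := by
  ext y
  simp only [res, Finset.mem_filter, Finset.mem_image]
  constructor
  · rintro ⟨⟨w, hw, rfl⟩, h⟩
    refine ⟨w, ⟨hw, ?_⟩, rfl⟩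
    simpa [tr_apply, Metric.mem_ball, dist_add_left] using h
  · rintro ⟨w, ⟨hw, h⟩, rfl⟩
    refine ⟨⟨w, hw, rfl⟩, ?_⟩
    simpa [tr_apply, Metric.mem_ball, dist_add_left] using h

open Classical in
lemma sh_tr {d : ℕ} (a x : V d) (F : Finset (X d)) :
    sh (a + x) (F.image (tr a)) = sh x F := by
  ext y
  simp only [sh, Finset.mem_image]
  constructor
  · rintro ⟨w, ⟨u, hu, rfl⟩, rfl⟩
    exact ⟨u, hu, by simp [tr_apply, add_sub_add_left_eq_sub]⟩
  · rintro ⟨u, hu, rfl⟩
    exact ⟨tr a u, ⟨u, hu, rfl⟩, by simp [tr_apply, add_sub_add_left_eq_sub]⟩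

open Classical in
lemma nch_tr (hCT : S_CT) {d : ℕ} {ε : ℝ} (hε : 0 < ε) (a : V d) (k : ℕ) :
    ∀ (z : X d) (s : ℝ≥0∞) (F : Finset (X d)),
      nch ε k (tr a z) s (F.image (tr a)) = nch ε k z s F := by
  have hct : ∀ z y : X d, ct ε (tr a z) (tr a y) = ct ε z y := fun z y =>
    (hCT d ε hε).2.2.2.2.2.2 (LinearIsometryEquiv.refl ℝ _) a z y
  induction k with
  | zero => intro z s F; simp [nch]
  | succ k ih =>
    intro z s F
    simp only [nch]
    rw [Finset.sum_image (fun x _ y _ h => (tr a).injective h)]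
    refine Finset.sum_congr rfl fun y hy => ?_
    rw [hct, del_tr, ih]

open Classical in
lemma alive_tr (hDIN : S_DIN) {d : ℕ} {ε : ℝ} (hε : 0 < ε) (a : V d) (z : X d) (t : ℝ)
    (F : Finset (X d)) : alive ε (tr a z) t (F.image (tr a)) ↔ alive ε z t F := by
  unfold alive
  rw [ins_tr]
  have h := hDIN d ε hε (LinearIsometryEquiv.refl ℝ _) a (ins z F) z
  have h' : dt ε ((ins z F).image (tr a)) (tr a z) = dt ε (ins z F) z := by
    rw [← h]; rfl
  rw [h']

open Classical in
lemma Loc_tr (hCT : S_CT) {d : ℕ} {ε : ℝ} (hε : 0 < ε) (κ r : ℝ) (a : V d) (z : X d)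
    (F : Finset (X d)) : Loc ε κ r (tr a z) (F.image (tr a)) ↔ Loc ε κ r z F := by
  unfold Loc
  have : res (Metric.ball (tr a z).1 r) (F.image (tr a)) =
      (res (Metric.ball z.1 r) F).image (tr a) := res_tr a z.1 r F
  rw [this, nch_tr hCT hε]

/-- the event of `GG` -/
def EV {d : ℕ} (ε κ r R t : ℝ) (A : Set (Finset (X d))) (z : X d) (x : V d) :
    Set (Finset (X d)) :=
  {F | alive ε z t F ∧ Loc ε κ r z F ∧ res (Metric.ball 0 R) (sh x F) ∈ A}

lemma EV_meas (hMEAS : S_MEAS) {d : ℕ} (hd : 0 < d) {ε : ℝ} (hε : 0 < ε) (κ r R t : ℝ)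
    {A : Set (Finset (X d))} (hA : MeasurableSet A) (z : X d) (x : V d) :
    MeasurableSet (EV ε κ r R t A z x) := by
  obtain ⟨m1, m2, m3, m4, m5, m6, m7, m8, m9, m10⟩ := hMEAS d ε hd hε
  exact (m6 z t).inter ((m9 z κ r).inter
    (((m1 _ measurableSet_ball).comp (m2 x)) hA))

lemma GG_eq {d : ℕ} (ε κ r R t : ℝ) (A : Set (Finset (X d))) (z : X d) (x : V d) :
    GG ε κ r R t A z x = poi (mB (Metric.ball z.1 r)) (EV ε κ r R t A z x) := rfl

lemma GG_tr (hMB : S_MB) (hMAP : S_MAP) (hCT : S_CT) (hDIN : S_DIN) (hMEAS : S_MEAS) {d : ℕ}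
    (hd : 0 < d) {ε : ℝ} (hε : 0 < ε) (κ r R t : ℝ) {A : Set (Finset (X d))}
    (hA : MeasurableSet A) (z : X d) (x a : V d) :
    GG ε κ r R t A (tr a z) (a + x) = GG ε κ r R t A z x := by
  classical
  obtain ⟨-, -, -, hB⟩ := hMB d hd
  obtain ⟨hfin, -, hmap, -⟩ := hB (Metric.ball z.1 r) measurableSet_ball measure_ball_lt_top.ne
  have himg : (fun x => a + (LinearIsometryEquiv.refl ℝ (V d)) x) '' Metric.ball z.1 r =
      Metric.ball (a + z.1) r := by
    ext y
    simp only [Set.mem_image, Metric.mem_ball, LinearIsometryEquiv.coe_refl, id]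
    constructor
    · rintro ⟨w, hw, rfl⟩
      rwa [dist_add_left]
    · intro hy
      refine ⟨y - a, ?_, by abel⟩
      rw [← dist_add_left a]
      simpa using hy
  have hmap' : (mB (Metric.ball z.1 r)).map (tr a) = mB (Metric.ball (a + z.1) r) := by
    rw [← himg]
    exact hmap (LinearIsometryEquiv.refl ℝ _) a
  have hS := EV_meas hMEAS hd hε κ r R t hA (tr a z) (a + x)
  have hS' := EV_meas hMEAS hd hε κ r R t hA z x
  have h := (hMAP d (mB (Metric.ball z.1 r)) (tr a)
    ((EV ε κ r R t A (tr a z) (a + x)).indicator 1) (measurable_one.indicator hS)).2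
  rw [hmap', lintegral_indicator_one hS] at h
  rw [GG_eq, GG_eq]
  change poi (mB (Metric.ball (a + z.1) r)) _ = _
  rw [h, ← lintegral_indicator_one hS']
  refine lintegral_congr fun F => ?_
  have hiff : F.image (tr a) ∈ EV ε κ r R t A (tr a z) (a + x) ↔ F ∈ EV ε κ r R t A z x := by
    unfold EV
    simp only [Set.mem_ofPred_eq]
    rw [alive_tr hDIN hε, Loc_tr hCT hε, sh_tr]
  by_cases hF : F ∈ EV ε κ r R t A z x
  · rw [Set.indicator_of_mem hF, Set.indicator_of_mem (hiff.2 hF)]; rfl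
  · rw [Set.indicator_of_notMem hF, Set.indicator_of_notMem (fun h => hF (hiff.1 h))]

/-! ### the lattice -/

/-- index of the cell -/
noncomputable def kf {d : ℕ} (h : ℝ) (x : V d) : Fin d → ℤ := fun i => ⌊x i / h⌋

/-- lattice point -/
noncomputable def lam {d : ℕ} (h : ℝ) (k : Fin d → ℤ) : V d := WithLp.toLp 2 fun i => h * (k i : ℝ)

lemma rd_eq {d : ℕ} (h : ℝ) (x : V d) : rd h x = lam h (kf h x) := rfl

lemma lam_zero {d : ℕ} (h : ℝ) : lam h (0 : Fin d → ℤ) = 0 := by
  ext i; simp [lam]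

lemma lam_inj {d : ℕ} {h : ℝ} (hh : 0 < h) {k l : Fin d → ℤ} (e : lam h k = lam h l) : k = l := by
  funext i
  have := congrArg (fun v : V d => v i) e
  simp only [lam] at this
  have h2 : (k i : ℝ) = (l i : ℝ) := mul_left_cancel₀ hh.ne' this
  exact_mod_cast h2

lemma rd_zero_iff {d : ℕ} {h : ℝ} (hh : 0 < h) (x : V d) : rd h x = 0 ↔ kf h x = 0 := by
  rw [rd_eq]
  constructor
  · intro e
    exact lam_inj hh (e.trans (lam_zero h).symm)
  · intro e; rw [e, lam_zero]

lemma kf_add {d : ℕ} {h : ℝ} (hh : 0 < h) (k : Fin d → ℤ) (x : V d) :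
    kf h (lam h k + x) = k + kf h x := by
  funext i
  simp only [kf, lam, Pi.add_apply]
  have : ((WithLp.toLp 2 (fun i => h * (k i : ℝ)) : V d) + x) i / h = (k i : ℝ) + x i / h := by
    simp only [PiLp.add_apply]
    field_simp
  rw [this, Int.floor_intCast_add]

lemma kf_meas {d : ℕ} (h : ℝ) : Measurable (kf h : V d → Fin d → ℤ) := by
  refine measurable_pi_iff.2 fun i => ?_
  have : Measurable fun x : V d => x i / h :=
    ((EuclideanSpace.proj i : V d →L[ℝ] ℝ).continuous.measurable).div_const h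
  exact this.floor

lemma norm_le_of_kf {d : ℕ} {h : ℝ} (hh : 0 < h) {x : V d} (e : kf h x = 0) :
    ‖x‖ ≤ h * Real.sqrt d := by
  have hx : ∀ i, ‖x i‖ ^ 2 ≤ h ^ 2 := fun i => by
    have h0 : ⌊x i / h⌋ = 0 := congrFun e i
    rw [Int.floor_eq_zero_iff] at h0
    have h1 : 0 ≤ x i := by
      have := h0.1
      have := mul_nonneg this hh.le
      rwa [div_mul_cancel₀ _ hh.ne'] at this
    have h2 : x i < h := by
      have := h0.2
      rwa [div_lt_one hh] at this
    rw [Real.norm_eq_abs, sq_abs]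
    nlinarith
  rw [EuclideanSpace.norm_eq]
  calc Real.sqrt (∑ i, ‖x i‖ ^ 2) ≤ Real.sqrt (∑ _i : Fin d, h ^ 2) :=
        Real.sqrt_le_sqrt (Finset.sum_le_sum fun i _ => hx i)
    _ = h * Real.sqrt d := by
        rw [Finset.sum_const, Finset.card_univ, Fintype.card_fin, nsmul_eq_mul, mul_comm,
          Real.sqrt_mul (sq_nonneg h), Real.sqrt_sq hh.le]

lemma pos_meas {d : ℕ} (t : ℝ) : Measurable fun z : X d => pos z t := by
  unfold pos
  exact measurable_fst.add (measurable_snd.const_smul t)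

lemma pos_tr {d : ℕ} (a : V d) (z : X d) (t : ℝ) : pos (tr a z) t = a + pos z t := by
  simp only [pos, tr_apply, add_assoc]

lemma mp_tr {d : ℕ} [SFinite (sig d)] (a : V d) :
    MeasurePreserving (tr a) ((volume : Measure (V d)).prod (sig d)) ((volume : Measure (V d)).prod (sig d)) :=
  (measurePreserving_add_left volume a).prod (MeasurePreserving.id (sig d))

/-- the substitution -/
lemma subst (hMB : S_MB) (hMAP : S_MAP) (hCT : S_CT) (hDIN : S_DIN) (hMEAS : S_MEAS) {d : ℕ}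
    (hd : 0 < d) {ε : ℝ} (hε : 0 < ε) (κ r R t : ℝ) {h : ℝ} (hh : 0 < h)
    {A : Set (Finset (X d))} (hA : MeasurableSet A) :
    ∫⁻ z in {z : X d | rd h z.1 = 0}, GG ε κ r R t A z (rd h (pos z t))
      ∂((volume : Measure (V d)).prod (sig d)) =
    ∫⁻ z in {z : X d | kf h (pos z t) = 0}, GG ε κ r R t A z 0
      ∂((volume : Measure (V d)).prod (sig d)) := by
  have : IsProbabilityMeasure (sig d) := (hMB d hd).1
  have m1 : Measurable fun z : X d => kf h z.1 := (kf_meas h).comp measurable_fst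
  have m2 : Measurable fun z : X d => kf h (pos z t) := (kf_meas h).comp (pos_meas t)
  set S : (Fin d → ℤ) → Set (X d) := fun k => {z | kf h z.1 = 0 ∧ kf h (pos z t) = k} with hS
  set T : (Fin d → ℤ) → Set (X d) := fun k => {z | kf h z.1 = -k ∧ kf h (pos z t) = 0} with hT
  have mS : ∀ k, MeasurableSet (S k) := fun k =>
    (m1 (measurableSet_singleton 0)).inter (m2 (measurableSet_singleton k))
  have mT : ∀ k, MeasurableSet (T k) := fun k =>
    (m1 (measurableSet_singleton (-k))).inter (m2 (measurableSet_singleton 0))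
  have dS : Pairwise (Function.onFun Disjoint S) := by
    intro k l hkl
    refine Set.disjoint_left.2 fun z hz hz' => hkl (hz.2.symm.trans hz'.2)
  have dT : Pairwise (Function.onFun Disjoint T) := by
    intro k l hkl
    refine Set.disjoint_left.2 fun z hz hz' => hkl (neg_injective (hz.1.symm.trans hz'.1))
  have uS : {z : X d | rd h z.1 = 0} = ⋃ k, S k := by
    ext z
    simp only [Set.mem_ofPred_eq, Set.mem_iUnion, hS, rd_zero_iff hh]
    exact ⟨fun e => ⟨_, e, rfl⟩, fun ⟨_, e, _⟩ => e⟩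
  have uT : {z : X d | kf h (pos z t) = 0} = ⋃ k, T k := by
    ext z
    simp only [Set.mem_ofPred_eq, Set.mem_iUnion, hT]
    exact ⟨fun e => ⟨-kf h z.1, by simp, e⟩, fun ⟨_, _, e⟩ => e⟩
  rw [uS, uT, lintegral_iUnion mS dS, lintegral_iUnion mT dT]
  refine tsum_congr fun k => ?_
  have e1 : ∫⁻ z in S k, GG ε κ r R t A z (rd h (pos z t)) ∂((volume : Measure (V d)).prod (sig d)) =
      ∫⁻ z in S k, GG ε κ r R t A z (lam h k + 0) ∂((volume : Measure (V d)).prod (sig d)) := by
    refine setLIntegral_congr_fun (mS k) fun z hz => ?_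
    simp only [rd_eq, add_zero]
    rw [hz.2]
  have e2 := (mp_tr (lam h k)).setLIntegral_comp_preimage_emb (tr (lam h k)).measurableEmbedding
    (fun z => GG ε κ r R t A z (lam h k + 0)) (S k)
  have e3 : tr (lam h k) ⁻¹' (S k) = T k := by
    ext z
    have q1 : kf h (tr (lam h k) z).1 = k + kf h z.1 := kf_add hh k z.1
    have q2 : kf h (pos (tr (lam h k) z) t) = k + kf h (pos z t) := by
      rw [pos_tr]; exact kf_add hh k _
    simp only [Set.mem_preimage, hS, hT, Set.mem_ofPred_eq, q1, q2]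
    constructor
    · rintro ⟨a, b⟩
      exact ⟨eq_neg_of_add_eq_zero_right a, by simpa using b⟩
    · rintro ⟨a, b⟩
      rw [a, b]; simp
  rw [e1, ← e2, e3]
  refine lintegral_congr fun z => ?_
  exact GG_tr hMB hMAP hCT hDIN hMEAS hd hε κ r R t hA z 0 (lam h k)

open Classical in
theorem t_LCM : S_PO1 → S_MK → S_MB → S_IND → S_MAP → S_CT → S_DYN → S_DIN → S_MEAS → S_SING →
    S_LCM := by
  intro _ hMK hMB hIND hMAP hCT _ hDIN hMEAS hSING
  intro d ε κ C r₀ hd hε hLoc h R A t r Q hh hhe hR hA hRt hr htr hRr hrQ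
  have := (hMB d hd).1
  obtain ⟨hκ0, hκ1, -, hr₀, hLa, -⟩ := hLoc
  have hr0 : 1 ≤ r := hr₀.trans hr
  have ht0 : 0 ≤ t := by linarith
  rw [subst hMB hMAP hCT hDIN hMEAS hd hε κ r R t hh hA]
  -- the function `f`
  set W : Set (X d) := {z | (‖pos z t‖ ≤ ε ∧ R ≤ ‖z.1‖)} with hW
  have mW : MeasurableSet W :=
    (measurableSet_le (pos_meas t).norm measurable_const).inter
      (measurableSet_le measurable_const measurable_fst.norm)
  set f : X d → ℝ≥0∞ := W.indicator 1 with hf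
  have mf : Measurable f := measurable_one.indicator mW
  have hf0 : ∀ z : X d, z.1 ∈ Metric.ball (0 : V d) R → f z = 0 := by
    intro z hz
    rw [hf, Set.indicator_of_notMem]
    intro hz'
    rw [mem_ball_zero_iff] at hz
    exact absurd hz'.2 (not_le.2 hz)
  have hvQ : volume (Metric.ball (0 : V d) Q) ≠ ⊤ := measure_ball_lt_top.ne
  have h1 := hSING d ε hd hε t R (Metric.ball (0 : V d) Q) A f measurableSet_ball hvQ hA mf hf0
  have h2 : ∫⁻ F in {F | res (Metric.ball 0 R) F ∈ A}, (∑ z ∈ F, if ENNReal.ofReal t < dt ε F z then f z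
      else 0) ∂(poi (mB (Metric.ball (0 : V d) Q))) ≤
      ∫⁻ F in {F | res (Metric.ball 0 R) F ∈ A}, Un ε t F ∂(PQ d Q) := by
    unfold PQ
    refine lintegral_mono fun F => ?_
    unfold Un
    refine Finset.sum_le_sum fun z _ => ?_
    by_cases c1 : ENNReal.ofReal t < dt ε F z
    · by_cases c2 : ‖pos z t‖ ≤ ε
      · rw [if_pos c1, if_pos ⟨c1, c2⟩]
        exact Set.indicator_le_self' (by simp) _ 
      · rw [if_pos c1, hf, Set.indicator_of_notMem (fun hz => c2 hz.1)]
        exact zero_le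
    · rw [if_neg c1]
      exact zero_le
  refine le_trans ?_ (h1.symm.le.trans h2)
  -- restrict to unit speeds
  set T : Set (X d) := {z | kf h (pos z t) = 0} with hT
  set T' : Set (X d) := T ∩ {z | ‖z.2‖ = 1} with hT'
  have mT : MeasurableSet T := ((kf_meas h).comp (pos_meas t)) (measurableSet_singleton 0)
  have mU : MeasurableSet {z : X d | ‖z.2‖ = 1} := measurableSet_eq_fun measurable_snd.norm measurable_const
  have mT' : MeasurableSet T' := mT.inter mU
  have hae : ∀ᵐ z ∂((volume : Measure (V d)).prod (sig d)), ‖z.2‖ = 1 := by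
    rw [ae_iff]
    have e : {a : X d | ¬ ‖a.2‖ = 1} = Set.univ ×ˢ {v : V d | ‖v‖ ≠ 1} := by
      ext z; simp
    rw [e, Measure.prod_prod, (hMB d hd).2.1, mul_zero]
  have hTT : (T' : Set (X d)) =ᵐ[(volume : Measure (V d)).prod (sig d)] T := by
    filter_upwards [hae] with z hz
    apply propext
    exact ⟨fun hz' => hz'.1, fun hz' => ⟨hz', hz⟩⟩
  rw [← Measure.restrict_congr_set hTT]
  have hmB : mB (Metric.ball (0 : V d) Q) = ((volume : Measure (V d)).prod (sig d)).restrict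
      (Metric.ball (0 : V d) Q ×ˢ Set.univ) := by
    rw [← Measure.prod_restrict, Measure.restrict_univ]; rfl
  rw [hmB]
  -- facts about `z ∈ T'`
  have hz1 : ∀ z ∈ T', ‖pos z t‖ ≤ ε ∧ ‖z.2‖ = 1 ∧ ‖z.1‖ ≤ t + ε ∧ t - ε ≤ ‖z.1‖ := by
    intro z hz
    have a1 : ‖pos z t‖ ≤ ε := (norm_le_of_kf hh hz.1).trans hhe
    have a2 : ‖z.2‖ = 1 := hz.2
    have a3 : ‖t • z.2‖ = t := by rw [norm_smul, a2, mul_one, Real.norm_of_nonneg ht0]
    have a4 : z.1 = pos z t - t • z.2 := by unfold pos; abel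
    have a5 : t • z.2 = pos z t - z.1 := by unfold pos; abel
    refine ⟨a1, a2, ?_, ?_⟩
    · rw [a4]
      exact (norm_sub_le _ _).trans (by rw [a3]; linarith)
    · have := norm_sub_le (pos z t) z.1
      rw [← a5, a3] at this
      linarith
  have hsub : T' ⊆ Metric.ball (0 : V d) Q ×ˢ Set.univ := by
    intro z hz
    refine ⟨?_, Set.mem_univ _⟩
    rw [mem_ball_zero_iff]
    have := (hz1 z hz).2.2.1
    linarith
  refine le_trans ?_ (lintegral_mono_set hsub)
  refine setLIntegral_mono' mT' fun z hz => ?_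
  obtain ⟨b1, b2, b3, b4⟩ := hz1 z hz
  have hzW : z ∈ W := ⟨b1, by linarith⟩
  rw [hf, Set.indicator_of_mem hzW, Pi.one_apply, one_mul, ← hmB, GG_eq]
  -- locality
  obtain ⟨-, -, -, hB⟩ := hMB d hd
  obtain ⟨hfin, hnull, -, hunit⟩ := hB (Metric.ball (0 : V d) Q) measurableSet_ball hvQ
  have hS := EV_meas hMEAS hd hε κ r R t hA z 0
  have hbQ : Metric.ball z.1 r ⊆ Metric.ball (0 : V d) Q := by
    intro x hx
    rw [mem_ball_zero_iff]
    rw [mem_ball_iff_norm] at hx
    have : ‖x‖ ≤ ‖x - z.1‖ + ‖z.1‖ := by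
      calc ‖x‖ = ‖(x - z.1) + z.1‖ := by rw [sub_add_cancel]
        _ ≤ _ := norm_add_le _ _
    linarith
  have hRb : Metric.ball (0 : V d) R ⊆ Metric.ball z.1 r := by
    intro x hx
    rw [mem_ball_zero_iff] at hx
    rw [mem_ball_iff_norm]
    have := norm_sub_le x z.1
    linarith
  have hI := (hIND d (Metric.ball (0 : V d) Q) (Metric.ball z.1 r) ∅ ∅ hd measurableSet_ball hvQ
    measurableSet_ball MeasurableSet.empty MeasurableSet.empty hbQ (Set.empty_subset _)
    (Set.empty_subset _) (Set.disjoint_empty _) (Set.disjoint_empty _) (Set.disjoint_empty _)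
    ((EV ε κ r R t A z 0).indicator 1) 0 0 (measurable_one.indicator hS) measurable_zero
    measurable_zero)
  have hI2 := hI.2.1
  rw [lintegral_indicator_one hS] at hI2
  rw [← hI2]
  have hSet : MeasurableSet {F | res (Metric.ball z.1 r) F ∈ EV ε κ r R t A z 0} :=
    ((hMEAS d ε hd hε).1 _ measurableSet_ball) hS
  have hI3 : ∫⁻ F, (EV ε κ r R t A z 0).indicator 1 (res (Metric.ball z.1 r) F)
      ∂(poi (mB (Metric.ball (0 : V d) Q))) =
      poi (mB (Metric.ball (0 : V d) Q)) {F | res (Metric.ball z.1 r) F ∈ EV ε κ r R t A z 0} := by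
    rw [← lintegral_indicator_one hSet]
    rfl
  rw [hI3]
  refine measure_mono_ae ?_
  have u1 : ∀ᵐ F ∂(poi (mB (Metric.ball (0 : V d) Q))), ∀ y ∈ F, ‖y.2‖ = 1 := by
    rw [ae_iff]
    convert hunit using 2
    ext F; simp
  have u2 : ∀ᵐ F ∂(poi (mB (Metric.ball (0 : V d) Q))), z ∉ F := by
    rw [ae_iff]
    simpa using (hMK d (mB (Metric.ball (0 : V d) Q))).2 z
  filter_upwards [u1, u2] with F v1 v2 hF
  obtain ⟨w1, w2, w3⟩ := hF
  have hidem : res (Metric.ball z.1 r) (res (Metric.ball z.1 r) F) = res (Metric.ball z.1 r) F := by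
    ext y; simp [res]
  have hL : Loc ε κ r z F := by
    unfold Loc at w2 ⊢
    rwa [hidem] at w2
  have hsh : sh (0 : V d) (res (Metric.ball z.1 r) F) = res (Metric.ball z.1 r) F := by
    ext y; simp [sh]
  have hres : res (Metric.ball 0 R) (res (Metric.ball z.1 r) F) = res (Metric.ball 0 R) F := by
    ext y
    simp only [res, Finset.mem_filter]
    exact ⟨fun q => ⟨q.1.1, q.2⟩, fun q => ⟨⟨q.1, hRb q.2⟩, q.2⟩⟩
  refine ⟨?_, ?_⟩
  · rw [hsh, hres] at w3
    exact w3
  · exact (hLa F z r t v1 b2 v2 hr ht0 htr hL).2 w1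

end Run7.h662.Met
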